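import Pool.Agent.W544.K3.Defs

set_option autoImplicit false
open Module Finset

namespace Pool.Agent.W505.K3

open Pool.Agent.W544.K3

variable {U : Type} [AddCommGroup U] [Module ℝ U] {B : U →ₗ[ℝ] U →ₗ[ℝ] ℝ}

/-- eigenvectors are orthogonal unless the eigenvalues are opposite -/
theorem eig_orth {x : End ℝ U} (hx : Skew B x) {u v : U} {μ ν : ℝ} (hu : x u = μ • u)
    (hv : x v = ν • v) (h : μ + ν ≠ 0) : B u v = 0 := by
  have h1 := hx u v
  rw [hu, hv] at h1
  simp only [map_smul, LinearMap.smul_apply, smul_eq_mul] at h1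
  have h2 : (μ + ν) * B u v = 0 := by linarith
  exact (mul_eq_zero.1 h2).resolve_left h

theorem nondeg (hs : Sig2 B) {v : U} (h : ∀ u, B u v = 0) : v = 0 := by
  obtain ⟨hsym, p, q, hp, hq, hpq, hneg⟩ := hs
  by_contra hv
  have h1 := hneg v hv (by rw [hsym]; exact h p) (by rw [hsym]; exact h q)
  rw [h v] at h1
  exact lt_irrefl _ h1

theorem diag_ext {x : End ℝ U} (hd : Diag x) (φ : U →ₗ[ℝ] ℝ)
    (h : ∀ (μ : ℝ) (u : U), x u = μ • u → φ u = 0) : φ = 0 := by
  have h1 : (⨆ μ : ℝ, End.eigenspace x μ) ≤ LinearMap.ker φ := by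
    refine iSup_le fun μ u hu => ?_
    rw [LinearMap.mem_ker]
    exact h μ u (End.mem_eigenspace_iff.1 hu)
  rw [hd] at h1
  ext u
  exact h1 (Submodule.mem_top (x := u))

theorem nondeg_eig (hs : Sig2 B) {x : End ℝ U} (hd : Diag x) {v : U}
    (h : ∀ (μ : ℝ) (u : U), x u = μ • u → B v u = 0) : v = 0 := by
  apply nondeg hs
  intro u
  have h1 := diag_ext hd (B v) h
  rw [hs.1, h1]
  rfl

/-- splitting off one hyperbolic pair -/
theorem split_pair (hs : Sig2 B) {x : End ℝ U} (hx : Skew B x) (hd : Diag x) (h0 : x ≠ 0) :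
    ∃ (a : ℝ) (e f : U), 0 < a ∧ Hyp B e f ∧ x e = a • e ∧ x f = -(a • f) ∧
      Skew B (x - a • wedge B f e) ∧ Diag (x - a • wedge B f e) ∧
      (x - a • wedge B f e) e = 0 ∧ (x - a • wedge B f e) f = 0 := by
  have hsym := hs.1
  -- an eigenvector with non-zero eigenvalue
  obtain ⟨a0, e0, ha0, he0, hxe0⟩ : ∃ (a : ℝ) (e : U), a ≠ 0 ∧ e ≠ 0 ∧ x e = a • e := by
    by_contra hcon
    push Not at hcon
    apply h0
    have h1 : (⨆ μ : ℝ, End.eigenspace x μ) ≤ LinearMap.ker x := by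
      refine iSup_le fun μ u hu => ?_
      rw [LinearMap.mem_ker]
      have h2 := End.mem_eigenspace_iff.1 hu
      by_cases hμ : μ = 0
      · rw [h2, hμ, zero_smul]
      · by_cases hu0 : u = 0
        · rw [hu0, map_zero]
        · exact absurd h2 (hcon μ u hμ hu0)
    rw [hd] at h1
    ext u
    exact h1 (Submodule.mem_top (x := u))
  -- the partner
  obtain ⟨f0, hxf0, hef0⟩ : ∃ f : U, x f = (-a0) • f ∧ B e0 f = 1 := by
    by_contra hcon
    push Not at hcon
    apply he0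
    apply nondeg_eig hs hd
    intro μ u hu
    by_contra hne
    have hμ : a0 + μ = 0 := by
      by_contra h2
      exact hne (eig_orth hx hxe0 hu h2)
    have hμ' : μ = -a0 := by linarith
    apply hcon ((B e0 u)⁻¹ • u)
    · rw [map_smul, hu, hμ', smul_comm]
    · rw [map_smul, smul_eq_mul, inv_mul_cancel₀ hne]
  have hee0 : B e0 e0 = 0 := eig_orth hx hxe0 hxe0 (by
    intro h; apply ha0; linarith)
  have hff0 : B f0 f0 = 0 := eig_orth hx hxf0 hxf0 (by
    intro h; apply ha0; linarith)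
  -- make the eigenvalue positive
  obtain ⟨a, e, f, ha, hH, hxe, hxf⟩ : ∃ (a : ℝ) (e f : U), 0 < a ∧ Hyp B e f ∧ x e = a • e ∧
      x f = -(a • f) := by
    rcases lt_or_gt_of_ne ha0 with h | h
    · refine ⟨-a0, f0, e0, by linarith, ⟨hff0, hee0, by rw [hsym]; exact hef0⟩, hxf0, ?_⟩
      rw [hxe0, neg_smul, neg_neg]
    · refine ⟨a0, e0, f0, h, ⟨hee0, hff0, hef0⟩, hxe0, ?_⟩
      rw [hxf0, neg_smul]
  obtain ⟨hee, hff, hef⟩ := hH
  have hfe : B f e = 1 := by rw [hsym]; exact hef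
  have hke : (x - a • wedge B f e) e = 0 := by
    rw [LinearMap.sub_apply, LinearMap.smul_apply, wedge_apply, hfe, hee, hxe, one_smul, zero_smul,
      sub_zero, sub_self]
  have hkf : (x - a • wedge B f e) f = 0 := by
    rw [LinearMap.sub_apply, LinearMap.smul_apply, wedge_apply, hff, hef, hxf, one_smul, zero_smul,
      zero_sub, smul_neg, sub_neg_eq_add, neg_add_cancel]
  refine ⟨a, e, f, ha, ⟨hee, hff, hef⟩, hxe, hxf, ?_, ?_, hke, hkf⟩
  · intro u v
    have h1 := hx u v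
    simp only [LinearMap.sub_apply, LinearMap.smul_apply, wedge_apply, map_sub, map_smul,
      smul_eq_mul]
    rw [hsym u e, hsym u f]
    linarith
  · rw [Diag, eq_top_iff, ← hd]
    refine iSup_le fun μ u hu => ?_
    have hxu := End.mem_eigenspace_iff.1 hu
    set u' : U := u - B f u • e - B e u • f with hu'
    have h1 : μ * B f u = a * B f u := by
      have := hx f u
      rw [hxf, hxu] at this
      simp only [map_smul, map_neg, LinearMap.neg_apply, LinearMap.smul_apply, smul_eq_mul] at this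
      linarith
    have h2 : μ * B e u = -(a * B e u) := by
      have := hx e u
      rw [hxe, hxu] at this
      simp only [map_smul, LinearMap.smul_apply, smul_eq_mul] at this
      linarith
    have h3 : B f u' = 0 := by
      rw [hu']
      simp only [map_sub, map_smul, smul_eq_mul, hfe, hff]
      ring
    have h4 : B e u' = 0 := by
      rw [hu']
      simp only [map_sub, map_smul, smul_eq_mul, hef, hee]
      ring
    have h5 : (x - a • wedge B f e) u' = μ • u' := by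
      rw [LinearMap.sub_apply, LinearMap.smul_apply, wedge_apply, h3, h4, zero_smul, zero_smul,
        sub_zero, smul_zero, sub_zero, hu']
      simp only [map_sub, map_smul, hxu, hxe, hxf, smul_sub, smul_smul]
      rw [h1, h2, mul_comm a (B f u), smul_neg, smul_smul, neg_smul, mul_comm a (B e u)]
    have h6 : u = u' + (B f u • e + B e u • f) := by
      rw [hu']; abel
    rw [h6]
    refine Submodule.add_mem _ ?_ (Submodule.add_mem _ ?_ ?_)
    · exact (le_iSup (fun μ : ℝ => End.eigenspace (x - a • wedge B f e) μ) μ)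
        (End.mem_eigenspace_iff.2 h5)
    · refine (le_iSup (fun μ : ℝ => End.eigenspace (x - a • wedge B f e) μ) 0)
        (End.mem_eigenspace_iff.2 ?_)
      rw [map_smul, hke, smul_zero, zero_smul]
    · refine (le_iSup (fun μ : ℝ => End.eigenspace (x - a • wedge B f e) μ) 0)
        (End.mem_eigenspace_iff.2 ?_)
      rw [map_smul, hkf, smul_zero, zero_smul]

/-- there are no three orthogonal non-negative directions -/
theorem three (hs : Sig2 B) {w1 w2 w3 : U} (h1 : 0 < B w1 w1) (h2 : 0 < B w2 w2)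
    (h3 : 0 ≤ B w3 w3) (h30 : w3 ≠ 0) (h12 : B w1 w2 = 0) (h13 : B w1 w3 = 0)
    (h23 : B w2 w3 = 0) : False := by
  obtain ⟨hsym, p, q, hp, hq, hpq, hneg⟩ := hs
  let L : (Fin 3 → ℝ) →ₗ[ℝ] (Fin 2 → ℝ) :=
    { toFun := fun c => ![B (c 0 • w1 + c 1 • w2 + c 2 • w3) p,
        B (c 0 • w1 + c 1 • w2 + c 2 • w3) q]
      map_add' := by
        intro c d
        ext i
        fin_cases i <;>
        · simp
          ring
      map_smul' := by
        intro r c
        ext i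
        fin_cases i <;>
        · simp
          ring }
  have hker : LinearMap.ker L ≠ ⊥ := LinearMap.ker_ne_bot_of_finrank_lt (by simp)
  obtain ⟨c, hc, hc0⟩ := (Submodule.ne_bot_iff _).1 hker
  rw [LinearMap.mem_ker] at hc
  have e1 : B (c 0 • w1 + c 1 • w2 + c 2 • w3) p = 0 := congrFun hc 0
  have e2 : B (c 0 • w1 + c 1 • w2 + c 2 • w3) q = 0 := congrFun hc 1
  have h21 : B w2 w1 = 0 := by rw [hsym]; exact h12
  have h31 : B w3 w1 = 0 := by rw [hsym]; exact h13
  have h32 : B w3 w2 = 0 := by rw [hsym]; exact h23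
  have hval : B (c 0 • w1 + c 1 • w2 + c 2 • w3) (c 0 • w1 + c 1 • w2 + c 2 • w3)
      = c 0 ^ 2 * B w1 w1 + c 1 ^ 2 * B w2 w2 + c 2 ^ 2 * B w3 w3 := by
    simp only [map_add, map_smul, LinearMap.add_apply, LinearMap.smul_apply, smul_eq_mul, h12, h13,
      h23, h21, h31, h32]
    ring
  have hne : c 0 • w1 + c 1 • w2 + c 2 • w3 ≠ 0 := by
    intro h
    have g1 : B w1 (c 0 • w1 + c 1 • w2 + c 2 • w3) = 0 := by rw [h, map_zero]
    have g2 : B w2 (c 0 • w1 + c 1 • w2 + c 2 • w3) = 0 := by rw [h, map_zero]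
    simp only [map_add, map_smul, smul_eq_mul, h12, h13, h21, h23, mul_zero, add_zero,
      zero_add] at g1 g2
    have g3 : c 0 = 0 := (mul_eq_zero.1 g1).resolve_right h1.ne'
    have g4 : c 1 = 0 := (mul_eq_zero.1 g2).resolve_right h2.ne'
    rw [g3, g4, zero_smul, zero_smul, zero_add, zero_add] at h
    have g5 : c 2 = 0 := (smul_eq_zero.1 h).resolve_right h30
    apply hc0
    ext i
    fin_cases i <;> simp [g3, g4, g5]
  have := hneg _ hne e1 e2
  rw [hval] at this
  have : 0 ≤ c 0 ^ 2 * B w1 w1 + c 1 ^ 2 * B w2 w2 + c 2 ^ 2 * B w3 w3 := by positivity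
  linarith

theorem hyp_add {e f : U} (hsym : ∀ u v, B u v = B v u) (h : Hyp B e f) :
    B (e + f) (e + f) = 2 := by
  obtain ⟨h1, h2, h3⟩ := h
  simp only [map_add, LinearMap.add_apply, h1, h2, h3, hsym f e]
  norm_num

theorem struct : S_struct := by
  intro U _ _ _ B hs x hx0 hx hd
  have hsym := hs.1
  obtain ⟨a, e₁, f₁, ha, hH1, hxe1, hxf1, hs1, hd1, hke1, hkf1⟩ := split_pair hs hx hd hx0
  by_cases hx1 : x - a • wedge B f₁ e₁ = 0
  · left
    exact ⟨a, e₁, f₁, ha.ne', hH1, sub_eq_zero.1 hx1⟩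
  right
  set x1 := x - a • wedge B f₁ e₁ with hx1def
  obtain ⟨b, e₂, f₂, hb, hH2, hxe2, hxf2, hs2, hd2, hke2, hkf2⟩ := split_pair hs hs1 hd1 hx1
  have hxe1' : x1 e₁ = (0 : ℝ) • e₁ := by rw [zero_smul]; exact hke1
  have hxf1' : x1 f₁ = (0 : ℝ) • f₁ := by rw [zero_smul]; exact hkf1
  have hxf2' : x1 f₂ = (-b) • f₂ := by rw [neg_smul]; exact hxf2
  have o1 : B e₁ e₂ = 0 := eig_orth hs1 hxe1' hxe2 (by linarith)
  have o2 : B e₁ f₂ = 0 := eig_orth hs1 hxe1' hxf2' (by linarith)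
  have o3 : B f₁ e₂ = 0 := eig_orth hs1 hxf1' hxe2 (by linarith)
  have o4 : B f₁ f₂ = 0 := eig_orth hs1 hxf1' hxf2' (by linarith)
  have hw1 : B (e₁ + f₁) (e₁ + f₁) = 2 := hyp_add hsym hH1
  have hw2 : B (e₂ + f₂) (e₂ + f₂) = 2 := hyp_add hsym hH2
  have hw12 : B (e₁ + f₁) (e₂ + f₂) = 0 := by
    simp only [map_add, LinearMap.add_apply, o1, o2, o3, o4, add_zero]
  have hneg : ∀ v, v ≠ 0 → B e₁ v = 0 → B f₁ v = 0 → B e₂ v = 0 → B f₂ v = 0 → B v v < 0 := by
    intro v hv g1 g2 g3 g4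
    by_contra hcon
    push Not at hcon
    refine three hs (w1 := e₁ + f₁) (w2 := e₂ + f₂) (w3 := v) (by rw [hw1]; norm_num)
      (by rw [hw2]; norm_num) hcon hv hw12 ?_ ?_
    · rw [map_add, LinearMap.add_apply, g1, g2, add_zero]
    · rw [map_add, LinearMap.add_apply, g3, g4, add_zero]
  have hx2 : x1 - b • wedge B f₂ e₂ = 0 := by
    by_contra hne
    set x2 := x1 - b • wedge B f₂ e₂ with hx2def
    obtain ⟨c, e₃, f₃, hc, hH3, hxe3, hxf3, -⟩ := split_pair hs hs2 hd2 hne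
    have hxf3' : x2 f₃ = (-c) • f₃ := by rw [neg_smul]; exact hxf3
    have k1 : x2 e₁ = (0 : ℝ) • e₁ := by
      rw [hx2def, LinearMap.sub_apply, hxe1', LinearMap.smul_apply, wedge_apply, hsym f₂ e₁,
        hsym e₂ e₁, o1, o2]
      simp
    have k2 : x2 f₁ = (0 : ℝ) • f₁ := by
      rw [hx2def, LinearMap.sub_apply, hxf1', LinearMap.smul_apply, wedge_apply, hsym f₂ f₁,
        hsym e₂ f₁, o3, o4]
      simp
    have k3 : x2 e₂ = (0 : ℝ) • e₂ := by rw [zero_smul]; exact hke2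
    have k4 : x2 f₂ = (0 : ℝ) • f₂ := by rw [zero_smul]; exact hkf2
    have hc1 : (0 : ℝ) + c ≠ 0 := by linarith
    have hc2 : (0 : ℝ) + -c ≠ 0 := by linarith
    have hne3 : e₃ + f₃ ≠ 0 := by
      intro h
      have := hyp_add hsym hH3
      rw [h, map_zero] at this
      norm_num at this
    refine three hs (w1 := e₁ + f₁) (w2 := e₂ + f₂) (w3 := e₃ + f₃) (by rw [hw1]; norm_num)
      (by rw [hw2]; norm_num) (by rw [hyp_add hsym hH3]; norm_num) hne3 hw12 ?_ ?_
    · simp only [map_add, LinearMap.add_apply, eig_orth hs2 k1 hxe3 hc1,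
        eig_orth hs2 k1 hxf3' hc2, eig_orth hs2 k2 hxe3 hc1, eig_orth hs2 k2 hxf3' hc2, add_zero]
    · simp only [map_add, LinearMap.add_apply, eig_orth hs2 k3 hxe3 hc1,
        eig_orth hs2 k3 hxf3' hc2, eig_orth hs2 k4 hxe3 hc1, eig_orth hs2 k4 hxf3' hc2, add_zero]
  have hfin : x = a • wedge B f₁ e₁ + b • wedge B f₂ e₂ := by
    have h1 : x1 = b • wedge B f₂ e₂ := sub_eq_zero.1 hx2
    rw [← h1, hx1def]
    abel
  rcases le_total b a with h | h
  · exact ⟨a, b, e₁, f₁, e₂, f₂, hb, h, ⟨hsym, hH1, hH2, o1, o2, o3, o4, hneg⟩, hfin⟩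
  · refine ⟨b, a, e₂, f₂, e₁, f₁, ha, h, ⟨hsym, hH2, hH1, by rw [hsym]; exact o1,
      by rw [hsym]; exact o3, by rw [hsym]; exact o2, by rw [hsym]; exact o4,
      fun v hv g1 g2 g3 g4 => hneg v hv g3 g4 g1 g2⟩, ?_⟩
    rw [hfin, add_comm]

end Pool.Agent.W505.K3
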