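import Pool.Agent.W544.K3.Defs

set_option autoImplicit false
open Module Finset Matrix

namespace Pool.Agent.W505.K3.Inner

open Pool.Agent.W544.K3

variable {m : ℕ}

/-- Frobenius norm squared -/
def fr (Q : Matrix (Fin m) (Fin m) ℝ) : ℝ := ∑ i, ∑ j, Q i j ^ 2

theorem fr_nonneg (Q : Matrix (Fin m) (Fin m) ℝ) : 0 ≤ fr Q :=
  Finset.sum_nonneg fun _ _ => Finset.sum_nonneg fun _ _ => sq_nonneg _

theorem le_fr (Q : Matrix (Fin m) (Fin m) ℝ) (i j : Fin m) : Q i j ^ 2 ≤ fr Q := by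
  have h1 : Q i j ^ 2 ≤ ∑ j, Q i j ^ 2 :=
    Finset.single_le_sum (f := fun j => Q i j ^ 2) (fun _ _ => sq_nonneg _) (Finset.mem_univ j)
  have h2 : ∑ j, Q i j ^ 2 ≤ fr Q :=
    Finset.single_le_sum (f := fun i => ∑ j, Q i j ^ 2)
      (fun _ _ => Finset.sum_nonneg fun _ _ => sq_nonneg _) (Finset.mem_univ i)
  exact h1.trans h2

theorem fr_eq_zero {Q : Matrix (Fin m) (Fin m) ℝ} (h : fr Q ≤ 0) : Q = 0 := by
  ext i j
  have h1 := le_fr Q i j
  have h2 : Q i j ^ 2 ≤ 0 := h1.trans h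
  exact pow_eq_zero_iff (two_ne_zero) |>.1 (le_antisymm h2 (sq_nonneg _))

theorem fr_mid (P Q : Matrix (Fin m) (Fin m) ℝ) :
    fr ((1 / 2 : ℝ) • (P + Q)) = (fr P + fr Q) / 2 - fr (P - Q) / 4 := by
  simp only [fr, Matrix.smul_apply, Matrix.add_apply, Matrix.sub_apply, smul_eq_mul]
  rw [← Finset.sum_add_distrib, Finset.sum_div, Finset.sum_div, ← Finset.sum_sub_distrib]
  refine Finset.sum_congr rfl fun i _ => ?_
  rw [← Finset.sum_add_distrib, Finset.sum_div, Finset.sum_div, ← Finset.sum_sub_distrib]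
  refine Finset.sum_congr rfl fun j _ => ?_
  ring

theorem fr_act {C : ℝ} (g Q : Matrix (Fin m) (Fin m) ℝ) (hg : ∀ i j, |g i j| ≤ C) :
    fr (gᵀ * Q * g) ≤ (((m : ℝ) ^ 2 * C ^ 2) ^ 2 + 1) * fr Q := by
  have hsq : ∀ i j, g i j ^ 2 ≤ C ^ 2 := fun i j => sq_le_sq' (by linarith [(abs_le.1 (hg i j)).1])
    (abs_le.1 (hg i j)).2
  have h1 : ∀ i j, (gᵀ * Q * g) i j ^ 2 ≤ (m : ℝ) ^ 2 * C ^ 4 * fr Q := by
    intro i j
    have e1 : (gᵀ * Q * g) i j = ∑ p : Fin m × Fin m, (g p.1 i * g p.2 j) * Q p.1 p.2 := by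
      rw [Matrix.mul_apply, Fintype.sum_prod_type_right]
      refine Finset.sum_congr rfl fun l _ => ?_
      rw [Matrix.mul_apply, Finset.sum_mul]
      refine Finset.sum_congr rfl fun k _ => ?_
      rw [Matrix.transpose_apply]
      ring
    have e2 : ∑ p : Fin m × Fin m, Q p.1 p.2 ^ 2 = fr Q := by
      rw [Fintype.sum_prod_type]
      rfl
    have e3 := Finset.sum_mul_sq_le_sq_mul_sq Finset.univ
      (fun p : Fin m × Fin m => g p.1 i * g p.2 j) (fun p => Q p.1 p.2)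
    rw [← e1, e2] at e3
    refine e3.trans (mul_le_mul_of_nonneg_right ?_ (fr_nonneg Q))
    have e4 : ∀ p ∈ (Finset.univ : Finset (Fin m × Fin m)), (g p.1 i * g p.2 j) ^ 2 ≤ C ^ 4 := by
      intro p _
      rw [mul_pow]
      have := mul_le_mul (hsq p.1 i) (hsq p.2 j) (sq_nonneg _) (sq_nonneg _)
      calc _ ≤ C ^ 2 * C ^ 2 := this
        _ = C ^ 4 := by ring
    have e5 := Finset.sum_le_sum e4
    refine e5.trans (le_of_eq ?_)
    simp only [Finset.sum_const, Finset.card_univ, Fintype.card_prod, Fintype.card_fin,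
      nsmul_eq_mul]
    push_cast
    ring
  have h2 : fr (gᵀ * Q * g) ≤ ∑ _i : Fin m, ∑ _j : Fin m, (m : ℝ) ^ 2 * C ^ 4 * fr Q :=
    Finset.sum_le_sum fun i _ => Finset.sum_le_sum fun j _ => h1 i j
  refine h2.trans ?_
  simp only [Finset.sum_const, Finset.card_univ, Fintype.card_fin, nsmul_eq_mul]
  nlinarith [fr_nonneg Q]

theorem vec_bound {C : ℝ} (g : Matrix (Fin m) (Fin m) ℝ) (hg : ∀ i j, |g i j| ≤ C)
    (w : Fin m → ℝ) : (g *ᵥ w) ⬝ᵥ (g *ᵥ w) ≤ ((m : ℝ) ^ 2 * C ^ 2 + 1) * (w ⬝ᵥ w) := by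
  have hsq : ∀ i j, g i j ^ 2 ≤ C ^ 2 := fun i j => sq_le_sq' (by linarith [(abs_le.1 (hg i j)).1])
    (abs_le.1 (hg i j)).2
  have hw : w ⬝ᵥ w = ∑ j, w j ^ 2 := by
    rw [dotProduct]
    exact Finset.sum_congr rfl fun _ _ => (sq _).symm
  have hw0 : 0 ≤ w ⬝ᵥ w := by
    rw [hw]; exact Finset.sum_nonneg fun _ _ => sq_nonneg _
  have h1 : ∀ i, (g *ᵥ w) i * (g *ᵥ w) i ≤ (m : ℝ) * C ^ 2 * (w ⬝ᵥ w) := by
    intro i
    have e3 := Finset.sum_mul_sq_le_sq_mul_sq Finset.univ (fun j => g i j) w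
    rw [← hw] at e3
    have e4 : (g *ᵥ w) i = ∑ j, g i j * w j := rfl
    rw [e4, ← sq]
    refine e3.trans (mul_le_mul_of_nonneg_right ?_ hw0)
    have e5 := Finset.sum_le_sum (fun j (_ : j ∈ Finset.univ) => hsq i j)
    refine e5.trans (le_of_eq ?_)
    simp
  have h2 : (g *ᵥ w) ⬝ᵥ (g *ᵥ w) ≤ ∑ _i : Fin m, (m : ℝ) * C ^ 2 * (w ⬝ᵥ w) :=
    Finset.sum_le_sum fun i _ => h1 i
  refine h2.trans ?_
  simp only [Finset.sum_const, Finset.card_univ, Fintype.card_fin, nsmul_eq_mul]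
  nlinarith

theorem inner : S_inner := by
  intro m G C hC
  set C1 : ℝ := ((m : ℝ) ^ 2 * C ^ 2) ^ 2 + 1 with hC1
  set C2 : ℝ := (m : ℝ) ^ 2 * C ^ 2 + 1 with hC2
  have hC1pos : 0 < C1 := by positivity
  have hC2pos : 0 < C2 := by positivity
  set S0 : ℝ := C1 * fr (1 : Matrix (Fin m) (Fin m) ℝ) with hS0
  have hS00 : 0 ≤ S0 := mul_nonneg hC1pos.le (fr_nonneg _)
  let S : Set (Matrix (Fin m) (Fin m) ℝ × ℝ) := {p | p.1ᵀ = p.1 ∧
    (∀ g ∈ G, ∀ v : Fin m → ℝ, C2⁻¹ * (v ⬝ᵥ v) ≤ v ⬝ᵥ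
      (((g : Matrix (Fin m) (Fin m) ℝ)ᵀ * p.1 * (g : Matrix (Fin m) (Fin m) ℝ)) *ᵥ v)) ∧
    (∀ g ∈ G, fr ((g : Matrix (Fin m) (Fin m) ℝ)ᵀ * p.1 * (g : Matrix (Fin m) (Fin m) ℝ)) ≤ p.2) ∧
    p.2 ≤ S0}
  have hne : S.Nonempty := by
    refine ⟨(1, S0), Matrix.transpose_one, ?_, ?_, le_refl _⟩
    · intro g hg v
      have h1 := vec_bound (g⁻¹ : GL (Fin m) ℝ).1 (hC _ (G.inv_mem hg)) ((g : Matrix _ _ ℝ) *ᵥ v)
      have h2 : (g⁻¹ : GL (Fin m) ℝ).1 *ᵥ ((g : Matrix (Fin m) (Fin m) ℝ) *ᵥ v) = v := by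
        rw [Matrix.mulVec_mulVec, ← Units.val_mul, inv_mul_cancel, Units.val_one,
          Matrix.one_mulVec]
      rw [h2] at h1
      have h3 : v ⬝ᵥ (((g : Matrix (Fin m) (Fin m) ℝ)ᵀ * 1 * (g : Matrix (Fin m) (Fin m) ℝ)) *ᵥ v)
          = ((g : Matrix (Fin m) (Fin m) ℝ) *ᵥ v) ⬝ᵥ ((g : Matrix (Fin m) (Fin m) ℝ) *ᵥ v) := by
        rw [Matrix.mul_one, ← Matrix.mulVec_mulVec, Matrix.dotProduct_mulVec,
          Matrix.vecMul_transpose]
      show C2⁻¹ * (v ⬝ᵥ v) ≤ _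
      rw [h3, inv_mul_le_iff₀ hC2pos]
      exact h1
    · intro g hg
      exact fr_act _ _ (hC g hg)
  have hcl : IsClosed S := by
    have k1 : IsClosed {p : Matrix (Fin m) (Fin m) ℝ × ℝ | p.1ᵀ = p.1} :=
      isClosed_eq (continuous_fst.matrix_transpose) continuous_fst
    have k2 : IsClosed {p : Matrix (Fin m) (Fin m) ℝ × ℝ | ∀ g ∈ G, ∀ v : Fin m → ℝ,
        C2⁻¹ * (v ⬝ᵥ v) ≤ v ⬝ᵥ
      (((g : Matrix (Fin m) (Fin m) ℝ)ᵀ * p.1 * (g : Matrix (Fin m) (Fin m) ℝ)) *ᵥ v)} := by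
      simp only [Set.setOf_forall]
      refine isClosed_iInter fun g => isClosed_iInter fun hg => isClosed_iInter fun v => ?_
      exact isClosed_le continuous_const (continuous_const.dotProduct
        (((continuous_const.matrix_mul continuous_fst).matrix_mul continuous_const).matrix_mulVec
          continuous_const))
    have k3 : IsClosed {p : Matrix (Fin m) (Fin m) ℝ × ℝ | ∀ g ∈ G,
        fr ((g : Matrix (Fin m) (Fin m) ℝ)ᵀ * p.1 * (g : Matrix (Fin m) (Fin m) ℝ)) ≤ p.2} := by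
      simp only [Set.setOf_forall]
      refine isClosed_iInter fun g => isClosed_iInter fun hg => ?_
      refine isClosed_le ?_ continuous_snd
      unfold fr
      refine continuous_finsetSum _ fun i _ => continuous_finsetSum _ fun j _ => ?_
      exact (((continuous_const.matrix_mul continuous_fst).matrix_mul
        continuous_const).matrix_elem i j).pow 2
    have k4 : IsClosed {p : Matrix (Fin m) (Fin m) ℝ × ℝ | p.2 ≤ S0} :=
      isClosed_le continuous_snd continuous_const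
    exact k1.inter (k2.inter (k3.inter k4))
  have hcomp : IsCompact S := by
    have hbox : IsCompact ((Set.univ.pi fun _ : Fin m => Set.univ.pi fun _ : Fin m =>
        Set.Icc (-(S0 + 1)) (S0 + 1)) ×ˢ Set.Icc (0 : ℝ) S0 :
          Set ((Fin m → Fin m → ℝ) × ℝ)) :=
      (isCompact_univ_pi fun _ => isCompact_univ_pi fun _ => isCompact_Icc).prod isCompact_Icc
    refine IsCompact.of_isClosed_subset hbox hcl ?_
    rintro ⟨Q, s⟩ ⟨-, -, h3, h4⟩
    have h5 : fr Q ≤ s := by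
      have := h3 1 G.one_mem
      rw [Units.val_one, Matrix.transpose_one, Matrix.one_mul, Matrix.mul_one] at this
      exact this
    have h6 : s ≤ S0 := h4
    refine ⟨?_, (fr_nonneg Q).trans h5, h6⟩
    intro i _ j _
    have h7 : Q i j ^ 2 ≤ S0 := (le_fr Q i j).trans (h5.trans h6)
    exact abs_le.1 (abs_le_of_sq_le_sq (by nlinarith) (by linarith))
  obtain ⟨⟨P, s⟩, hPS, hmin⟩ := hcomp.exists_isMinOn hne continuous_snd.continuousOn
  obtain ⟨hP1, hP2, hP3, hP4⟩ := hPS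
  refine ⟨P, ?_, ?_⟩
  · refine Matrix.PosDef.of_dotProduct_mulVec_pos ?_ ?_
    · rw [Matrix.IsHermitian, Matrix.conjTranspose_eq_transpose_of_trivial]
      exact hP1
    · intro v hv
      have h1 := hP2 1 G.one_mem v
      rw [Units.val_one, Matrix.transpose_one, Matrix.one_mul, Matrix.mul_one] at h1
      rw [star_trivial]
      refine lt_of_lt_of_le ?_ h1
      apply mul_pos (inv_pos.2 hC2pos)
      have h2 := Matrix.dotProduct_star_self_pos_iff.2 hv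
      rwa [star_trivial] at h2
  · intro g hg
    set P' : Matrix (Fin m) (Fin m) ℝ :=
      (g : Matrix (Fin m) (Fin m) ℝ)ᵀ * P * (g : Matrix (Fin m) (Fin m) ℝ) with hP'
    have key : ∀ h : GL (Fin m) ℝ, (h : Matrix (Fin m) (Fin m) ℝ)ᵀ * P' *
        (h : Matrix (Fin m) (Fin m) ℝ) = ((g * h : GL (Fin m) ℝ) : Matrix (Fin m) (Fin m) ℝ)ᵀ * P *
        ((g * h : GL (Fin m) ℝ) : Matrix (Fin m) (Fin m) ℝ) := by
      intro h
      rw [hP', Units.val_mul, Matrix.transpose_mul]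
      simp only [Matrix.mul_assoc]
    have hlow : ∀ h ∈ G, fr (P - P') ≤ C1 * fr ((h : Matrix (Fin m) (Fin m) ℝ)ᵀ * (P - P') *
        (h : Matrix (Fin m) (Fin m) ℝ)) := by
      intro h hh
      have h1 := fr_act (h⁻¹ : GL (Fin m) ℝ).1 ((h : Matrix (Fin m) (Fin m) ℝ)ᵀ * (P - P') *
        (h : Matrix (Fin m) (Fin m) ℝ)) (hC _ (G.inv_mem hh))
      have h2 : ((h⁻¹ : GL (Fin m) ℝ).1)ᵀ * ((h : Matrix (Fin m) (Fin m) ℝ)ᵀ * (P - P') *
          (h : Matrix (Fin m) (Fin m) ℝ)) * (h⁻¹ : GL (Fin m) ℝ).1 = P - P' := by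
        have e1 : (h : Matrix (Fin m) (Fin m) ℝ) * (h⁻¹ : GL (Fin m) ℝ).1 = 1 := by
          rw [← Units.val_mul, mul_inv_cancel, Units.val_one]
        have e2 : ((h⁻¹ : GL (Fin m) ℝ).1)ᵀ * (h : Matrix (Fin m) (Fin m) ℝ)ᵀ = 1 := by
          rw [← Matrix.transpose_mul, e1, Matrix.transpose_one]
        calc _ = (((h⁻¹ : GL (Fin m) ℝ).1)ᵀ * (h : Matrix (Fin m) (Fin m) ℝ)ᵀ) * (P - P') *
          ((h : Matrix (Fin m) (Fin m) ℝ) * (h⁻¹ : GL (Fin m) ℝ).1) := by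
              simp only [Matrix.mul_assoc]
          _ = P - P' := by rw [e1, e2, Matrix.one_mul, Matrix.mul_one]
      rw [h2] at h1
      exact h1
    have hmem : (((1 / 2 : ℝ) • (P + P'), s - fr (P - P') / (4 * C1)) :
        Matrix (Fin m) (Fin m) ℝ × ℝ) ∈ S := by
      have hdist : ∀ h : GL (Fin m) ℝ, (h : Matrix (Fin m) (Fin m) ℝ)ᵀ * ((1 / 2 : ℝ) • (P + P')) *
          (h : Matrix (Fin m) (Fin m) ℝ) = (1 / 2 : ℝ) •
          ((h : Matrix (Fin m) (Fin m) ℝ)ᵀ * P * (h : Matrix (Fin m) (Fin m) ℝ) +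
          (h : Matrix (Fin m) (Fin m) ℝ)ᵀ * P' * (h : Matrix (Fin m) (Fin m) ℝ)) := by
        intro h
        rw [Matrix.mul_smul, Matrix.smul_mul, Matrix.mul_add, Matrix.add_mul]
      refine ⟨?_, ?_, ?_, ?_⟩
      · show ((1 / 2 : ℝ) • (P + P'))ᵀ = (1 / 2 : ℝ) • (P + P')
        have hP1' : P'ᵀ = P' := by
          rw [hP', Matrix.transpose_mul, Matrix.transpose_mul, Matrix.transpose_transpose,
            show Pᵀ = P from hP1, Matrix.mul_assoc]
        rw [Matrix.transpose_smul, Matrix.transpose_add, hP1', show Pᵀ = P from hP1]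
      · intro h hh v
        show C2⁻¹ * (v ⬝ᵥ v) ≤ v ⬝ᵥ (((h : Matrix (Fin m) (Fin m) ℝ)ᵀ * ((1 / 2 : ℝ) • (P + P')) *
          (h : Matrix (Fin m) (Fin m) ℝ)) *ᵥ v)
        rw [hdist, Matrix.smul_mulVec, dotProduct_smul, Matrix.add_mulVec, dotProduct_add, key,
          smul_eq_mul]
        have h1 := hP2 h hh v
        have h2 := hP2 (g * h) (G.mul_mem hg hh) v
        simp only at h1 h2
        linarith
      · intro h hh
        show fr ((h : Matrix (Fin m) (Fin m) ℝ)ᵀ * ((1 / 2 : ℝ) • (P + P')) *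
          (h : Matrix (Fin m) (Fin m) ℝ)) ≤ s - fr (P - P') / (4 * C1)
        rw [hdist, fr_mid]
        have h1 : fr ((h : Matrix (Fin m) (Fin m) ℝ)ᵀ * P * (h : Matrix (Fin m) (Fin m) ℝ)) ≤ s :=
          hP3 h hh
        have h2 : fr ((h : Matrix (Fin m) (Fin m) ℝ)ᵀ * P' * (h : Matrix (Fin m) (Fin m) ℝ)) ≤ s := by
          rw [key]
          exact hP3 (g * h) (G.mul_mem hg hh)
        have h3 := hlow h hh
        rw [Matrix.mul_sub, Matrix.sub_mul] at h3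
        have h4 : fr (P - P') / (4 * C1) ≤ fr ((h : Matrix (Fin m) (Fin m) ℝ)ᵀ * P *
            (h : Matrix (Fin m) (Fin m) ℝ) - (h : Matrix (Fin m) (Fin m) ℝ)ᵀ * P' *
            (h : Matrix (Fin m) (Fin m) ℝ)) / 4 := by
          rw [div_le_div_iff₀ (by positivity) (by norm_num)]
          nlinarith
        linarith
      · show s - fr (P - P') / (4 * C1) ≤ S0
        have h1 : s ≤ S0 := hP4
        have h2 : 0 ≤ fr (P - P') / (4 * C1) := div_nonneg (fr_nonneg _) (by positivity)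
        linarith
    have h1 : s ≤ s - fr (P - P') / (4 * C1) := hmin hmem
    have h2 : fr (P - P') ≤ 0 := by
      have h3 : fr (P - P') / (4 * C1) ≤ 0 := by linarith
      by_contra hcon
      push Not at hcon
      have : 0 < fr (P - P') / (4 * C1) := div_pos hcon (by positivity)
      linarith
    have h3 := fr_eq_zero h2
    exact (sub_eq_zero.1 h3).symm

end Pool.Agent.W505.K3.Inner
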