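import Pool.Agent.W544.K3.Defs

set_option autoImplicit false
open Module Finset

namespace Pool.Agent.W505.K3.Re

open Pool.Agent.W544.K3

variable {V : Type} [AddCommGroup V] [Module ℝ V]

theorem exists_onb [FiniteDimensional ℝ V] (P : V →ₗ[ℝ] V →ₗ[ℝ] ℝ) (hP : IsPos P) :
    ∃ (n : ℕ) (b : Basis (Fin n) ℝ V), ∀ i j, P (b i) (b j) = if i = j then 1 else 0 := by
  let core : InnerProductSpace.Core ℝ V :=
    { inner := fun u v => P u v
      conj_inner_symm := fun u v => hP.1 v u
      re_inner_nonneg := fun u => by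
        by_cases h : u = 0
        · subst h
          simp
        · exact (hP.2 u h).le
      add_left := fun u v w => by simp
      smul_left := fun u v r => by simp
      definite := fun u h => by
        by_contra h0
        exact (hP.2 u h0).ne' h }
  letI : NormedAddCommGroup V := core.toNormedAddCommGroup
  letI : InnerProductSpace ℝ V := InnerProductSpace.ofCore core.toCore
  let b := stdOrthonormalBasis ℝ V
  refine ⟨_, b.toBasis, fun i j => ?_⟩
  have h1 := orthonormal_iff_ite.1 b.orthonormal i j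
  rw [OrthonormalBasis.coe_toBasis]
  exact h1

/-- derivation action -/
noncomputable def D {k : ℕ} (y : End ℝ V) (t : MultilinearMap ℝ (fun _ : Fin k => V) ℝ) :
    MultilinearMap ℝ (fun _ : Fin k => V) ℝ :=
  ∑ j, t.compLinearMap (fun i => if i = j then y else LinearMap.id)

theorem D_apply {k : ℕ} (y : End ℝ V) (t : MultilinearMap ℝ (fun _ : Fin k => V) ℝ)
    (v : Fin k → V) : D y t v = ∑ j, t (Function.update v j (y (v j))) := by
  rw [D, MultilinearMap.sum_apply]
  refine Finset.sum_congr rfl fun j _ => ?_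
  rw [MultilinearMap.compLinearMap_apply]
  congr 1
  ext i
  by_cases h : i = j
  · subst h
    simp
  · simp [h]

theorem kills_iff {k : ℕ} (y : End ℝ V) (t : MultilinearMap ℝ (fun _ : Fin k => V) ℝ) :
    Kills y t ↔ D y t = 0 := by
  constructor
  · intro h
    ext v
    rw [D_apply]
    exact h v
  · intro h v
    rw [← D_apply, h]
    rfl

theorem D_add {k : ℕ} (y z : End ℝ V) (t : MultilinearMap ℝ (fun _ : Fin k => V) ℝ) :
    D (y + z) t = D y t + D z t := by
  ext v
  rw [MultilinearMap.add_apply, D_apply, D_apply, D_apply, ← Finset.sum_add_distrib]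
  refine Finset.sum_congr rfl fun j _ => ?_
  rw [LinearMap.add_apply, MultilinearMap.map_update_add]

theorem D_comm {k : ℕ} (y z : End ℝ V) (h : y * z = z * y)
    (t : MultilinearMap ℝ (fun _ : Fin k => V) ℝ) : D y (D z t) = D z (D y t) := by
  ext v
  rw [D_apply, D_apply]
  simp only [D_apply]
  rw [Finset.sum_comm]
  refine Finset.sum_congr rfl fun i _ => Finset.sum_congr rfl fun j _ => ?_
  by_cases hij : i = j
  · subst hij
    simp only [Function.update_self, Function.update_idem]
    congr 2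
    exact (LinearMap.congr_fun h (v i)).symm
  · rw [Function.update_of_ne hij, Function.update_of_ne (Ne.symm hij),
      Function.update_comm hij]

variable {n : ℕ} (b : Basis (Fin n) ℝ V)

/-- inner product on forms -/
noncomputable def ip {k : ℕ} (s t : MultilinearMap ℝ (fun _ : Fin k => V) ℝ) : ℝ :=
  ∑ I : Fin k → Fin n, s (fun j => b (I j)) * t (fun j => b (I j))

theorem expand {P : V →ₗ[ℝ] V →ₗ[ℝ] ℝ} (hb : ∀ i j, P (b i) (b j) = if i = j then 1 else 0)
    (v : V) : v = ∑ l, P (b l) v • b l := by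
  conv_lhs => rw [← b.sum_repr v]
  refine Finset.sum_congr rfl fun l _ => ?_
  congr 1
  conv_rhs => rw [← b.sum_repr v]
  rw [map_sum]
  simp only [map_smul, hb, smul_eq_mul, mul_ite, mul_one, mul_zero]
  simp

theorem D_basis {P : V →ₗ[ℝ] V →ₗ[ℝ] ℝ} (hb : ∀ i j, P (b i) (b j) = if i = j then 1 else 0)
    {k : ℕ} (y : End ℝ V) (t : MultilinearMap ℝ (fun _ : Fin k => V) ℝ) (I : Fin k → Fin n) :
    D y t (fun j => b (I j)) = ∑ j, ∑ l, P (b l) (y (b (I j))) *
      t (fun i => b (Function.update I j l i)) := by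
  rw [D_apply]
  refine Finset.sum_congr rfl fun j _ => ?_
  conv_lhs => rw [expand b hb (y (b (I j)))]
  rw [MultilinearMap.map_update_sum]
  refine Finset.sum_congr rfl fun l _ => ?_
  rw [MultilinearMap.map_update_smul, smul_eq_mul]
  congr 2
  ext i
  by_cases h : i = j
  · subst h; simp
  · simp [h]

/-- the involution on index pairs -/
def inv' {k : ℕ} (j : Fin k) : (Fin k → Fin n) × Fin n ≃ (Fin k → Fin n) × Fin n where
  toFun p := (Function.update p.1 j p.2, p.1 j)
  invFun p := (Function.update p.1 j p.2, p.1 j)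
  left_inv p := by simp
  right_inv p := by simp

theorem adj {P : V →ₗ[ℝ] V →ₗ[ℝ] ℝ} (hb : ∀ i j, P (b i) (b j) = if i = j then 1 else 0)
    {k : ℕ} (y y' : End ℝ V) (hy : ∀ i l, P (b l) (y (b i)) = P (b i) (y' (b l)))
    (t s : MultilinearMap ℝ (fun _ : Fin k => V) ℝ) :
    ip b (D y t) s = ip b t (D y' s) := by
  unfold ip
  simp only [D_basis b hb, Finset.sum_mul, Finset.mul_sum]
  rw [Finset.sum_comm]
  conv_rhs => rw [Finset.sum_comm]
  refine Finset.sum_congr rfl fun j _ => ?_
  rw [← Finset.sum_product', ← Finset.sum_product', Finset.univ_product_univ,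
    ← Equiv.sum_comp (inv' j)]
  refine Finset.sum_congr rfl fun p _ => ?_
  simp only [inv', Equiv.coe_fn_mk, Function.update_self, Function.update_idem,
    Function.update_eq_self]
  rw [hy]
  ring

theorem D_neg {k : ℕ} (y : End ℝ V) (t : MultilinearMap ℝ (fun _ : Fin k => V) ℝ) :
    D (-y) t = - D y t := by
  have h := D_add y (-y) t
  have h0 : D (0 : End ℝ V) t = 0 := by
    ext v
    rw [D_apply]
    exact Finset.sum_eq_zero fun j _ => t.map_update_zero v j
  rw [add_neg_cancel, h0] at h
  exact eq_neg_of_add_eq_zero_right h.symm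

theorem ip_comm {k : ℕ} (s t : MultilinearMap ℝ (fun _ : Fin k => V) ℝ) :
    ip b s t = ip b t s :=
  Finset.sum_congr rfl fun _ _ => mul_comm _ _

theorem re : S_re := by
  intro V _ _ _ P hP y₁ y₂ h1 h2 hc k t ht
  obtain ⟨n, b, hb⟩ := exists_onb P hP
  rw [kills_iff, D_add] at ht
  rw [kills_iff]
  have hA : ∀ s s' : MultilinearMap ℝ (fun _ : Fin k => V) ℝ, ip b (D y₁ s) s' = ip b s (D y₁ s') :=
    adj b hb y₁ y₁ (fun i l => by rw [← h1, hP.1])
  have hB : ∀ s s' : MultilinearMap ℝ (fun _ : Fin k => V) ℝ,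
      ip b (D y₂ s) s' = - ip b s (D y₂ s') := by
    intro s s'
    rw [adj b hb y₂ (-y₂) (fun i l => by
      have := h2 (b l) (b i)
      rw [hP.1 (y₂ (b l)) (b i)] at this
      rw [LinearMap.neg_apply, map_neg]
      linarith) s s', D_neg]
    simp [ip]
  have e1 : ip b (D y₁ t) (D y₂ t) = 0 := by
    have g1 := hA t (D y₂ t)
    have g2 := hB t (D y₁ t)
    rw [D_comm y₂ y₁ hc.symm t, ← g1, ip_comm] at g2
    linarith
  have e2 : ip b (D y₁ t) (D y₁ t) = 0 := by
    have g1 : ip b (D y₁ t) (D y₁ t + D y₂ t) = 0 := by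
      rw [ht]
      simp [ip]
    have g2 : ip b (D y₁ t) (D y₁ t + D y₂ t)
        = ip b (D y₁ t) (D y₁ t) + ip b (D y₁ t) (D y₂ t) := by
      simp only [ip, MultilinearMap.add_apply, mul_add, Finset.sum_add_distrib]
    linarith
  refine Basis.ext_multilinear (fun _ => b) fun I => ?_
  have e3 := (Finset.sum_eq_zero_iff_of_nonneg (fun I _ => mul_self_nonneg _)).1 e2 I
    (Finset.mem_univ _)
  exact mul_self_eq_zero.1 e3

end Pool.Agent.W505.K3.Re
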